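import Pool.Agent.H.MP_a950c6_lc.C

namespace Pool.Agent.Results.MP_a950c6_lc.Complete

open Pool.Agent.Lib.CX Pool.Agent.H.MP_a950c6_lc

theorem result : NPComplete fun a : {a : Gr × Gr // IsInterval a.1.G} => HasRole a.1.1.G a.1.2.G := complete

end Pool.Agent.Results.MP_a950c6_lc.Complete
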